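import Pool.Agent.Helper18.RD.Stmts6

set_option autoImplicit false

namespace Pool.Agent.Helper12.RD6

open Finset Pool.Agent.Helper18.RD

theorem jac_prod (a : ℤ) {n : ℕ} (s : Fin n → ℕ) (S : Finset (Fin n)) (hs : ∀ i, s i ≠ 0) :
    jacobiSym a (∏ i ∈ S, s i) = ∏ i ∈ S, jacobiSym a (s i) := by
  classical
  induction S using Finset.induction_on with
  | empty => rw [prod_empty, prod_empty, jacobiSym.one_right]
  | insert i S hi ih =>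
    rw [prod_insert hi, prod_insert hi,
      jacobiSym.mul_right' a (hs i) (prod_ne_zero_iff.2 fun j _ => hs j), ih]

theorem st_ENE (hFI : ST_FI6) (hSU : ST_SU6) : ST_ENE := by
  classical
  intro K hK
  obtain ⟨A, hA⟩ : ∃ A : ℝ, A = 4 ^ (4 * K) * ((2 * K : ℕ) : ℝ) ^ (2 * K) := ⟨_, rfl⟩
  have hK1 : (1 : ℝ) ≤ ((2 * K : ℕ) : ℝ) := by exact_mod_cast (by omega : 1 ≤ 2 * K)
  have hA0 : 0 < A := by
    rw [hA]
    have : (0 : ℝ) < ((2 * K : ℕ) : ℝ) := by linarith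
    positivity
  refine ⟨2048 * A, by positivity, ?_⟩
  intro N P D J U d hN hD hJ hd hU hPD hNP hp
  obtain ⟨T, hT⟩ : ∃ T, T = T4 J := ⟨_, rfl⟩
  obtain ⟨Y, hY⟩ : ∃ Y : ℕ × ℕ × ℕ × ℕ → ℤ, Y = cyc d := ⟨_, rfl⟩
  obtain ⟨R, hR⟩ : ∃ R : ℝ, R = J.card := ⟨_, rfl⟩
  have hR1 : 1 ≤ R := by
    rw [hR]
    exact_mod_cast card_pos.2 hJ
  have hTR : (T.card : ℝ) ≤ R ^ 4 := by
    have h1 : T.card ≤ J.card ^ 4 := by
      rw [hT]
      unfold T4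
      refine (card_filter_le _ _).trans ?_
      rw [card_product, card_product, card_product]
      apply le_of_eq
      ring
    rw [hR]
    exact_mod_cast h1
  have hYb : ∀ t ∈ T, Y t ≠ 0 ∧ |Y t| ≤ ((16 * N ^ 4 : ℕ) : ℤ) := by
    intro t ht
    rw [hT] at ht
    unfold T4 at ht
    rw [mem_filter, mem_product, mem_product, mem_product] at ht
    obtain ⟨⟨h1, h2, h3, h4⟩, h5, h6, h7, h8⟩ := ht
    have e1 := hd _ h1 _ h3 h5
    have e2 := hd _ h1 _ h4 h6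
    have e3 := hd _ h2 _ h3 h7
    have e4 := hd _ h2 _ h4 h8
    rw [hY]
    unfold cyc
    refine ⟨mul_ne_zero (mul_ne_zero (mul_ne_zero e1.1 e2.1) e3.1) e4.1, ?_⟩
    rw [abs_mul, abs_mul, abs_mul]
    have h9 : (0 : ℤ) ≤ 2 * N := by positivity
    calc |d t.1 t.2.2.1| * |d t.1 t.2.2.2| * |d t.2.1 t.2.2.1| * |d t.2.1 t.2.2.2| ≤
        (2 * N) * (2 * N) * (2 * N) * (2 * N) := by
          apply mul_le_mul _ e4.2 (abs_nonneg _) (by positivity)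
          apply mul_le_mul _ e3.2 (abs_nonneg _) (by positivity)
          exact mul_le_mul e1.2 e2.2 (abs_nonneg _) (by positivity)
      _ = ((16 * N ^ 4 : ℕ) : ℤ) := by push_cast; ring
  obtain ⟨χ, hχ⟩ : ∃ χ : ℕ × ℕ × ℕ × ℕ → ℕ → ℝ, ∀ t r, χ t r = ((jacobiSym (Y t) r : ℤ) : ℝ) :=
    ⟨fun t r => ((jacobiSym (Y t) r : ℤ) : ℝ), fun _ _ => rfl⟩
  obtain ⟨F, hF⟩ : ∃ F : ℕ × ℕ × ℕ × ℕ → ℝ, ∀ t, F t = ∑ p ∈ U, χ t p :=
    ⟨fun t => ∑ p ∈ U, χ t p, fun _ => rfl⟩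
  obtain ⟨G, hG⟩ : ∃ G : ℕ → ℝ, ∀ r, G r = ∑ t ∈ T, χ t r :=
    ⟨fun r => ∑ t ∈ T, χ t r, fun _ => rfl⟩
  obtain ⟨u, hu⟩ : ∃ u : ℝ, u = U.card := ⟨_, rfl⟩
  have hu0 : 0 ≤ u := by rw [hu]; positivity
  have h1 : u * (R ^ 4 / 4) ≤ ∑ t ∈ T, F t := by
    have e1 : ∑ t ∈ T, F t = ∑ p ∈ U, G p := by
      rw [sum_congr rfl fun t _ => hF t, sum_comm]
      exact sum_congr rfl fun p _ => (hG p).symm
    rw [e1]
    have e2 : ∀ p ∈ U, R ^ 4 / 4 ≤ G p := by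
      intro p hpU
      have e3 := hp p hpU
      have e4 : ((J.card : ℝ)) ^ 4 ≤ 4 * ∑ t ∈ T4 J, ((jacobiSym (cyc d t) p : ℤ) : ℝ) := by
        exact_mod_cast e3
      rw [hG, hR]
      have e5 : ∑ t ∈ T, χ t p = ∑ t ∈ T4 J, ((jacobiSym (cyc d t) p : ℤ) : ℝ) := by
        rw [hT]
        refine sum_congr rfl fun t _ => ?_
        rw [hχ, hY]
      rw [e5]
      linarith
    calc u * (R ^ 4 / 4) = ∑ _p ∈ U, R ^ 4 / 4 := by rw [sum_const, nsmul_eq_mul, hu]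
      _ ≤ _ := sum_le_sum e2
  obtain ⟨V, hV⟩ : ∃ V : Finset (Fin (2 * K) → ℕ),
      V = Fintype.piFinset (fun _ : Fin (2 * K) => U) := ⟨_, rfl⟩
  have hVc : (V.card : ℝ) = u ^ (2 * K) := by
    rw [hV, Fintype.card_piFinset, prod_const, card_univ, Fintype.card_fin, hu]
    push_cast
    ring
  obtain ⟨Q, hQ⟩ : ∃ Q : ℝ, Q = ∑ t ∈ T, F t ^ (2 * K) := ⟨_, rfl⟩
  have h2 : (u * (R ^ 4 / 4)) ^ (2 * K) ≤ (R ^ 4) ^ (2 * K - 1) * Q := by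
    have e1 : ∑ t ∈ T, F t ≤ ∑ t ∈ T, |F t| := sum_le_sum fun t _ => le_abs_self _
    have e2 : (∑ t ∈ T, |F t|) ^ (2 * K - 1 + 1) ≤
        (T.card : ℝ) ^ (2 * K - 1) * ∑ t ∈ T, |F t| ^ (2 * K - 1 + 1) :=
      pow_sum_le_card_mul_sum_pow (fun t _ => abs_nonneg _) _
    have e3 : 2 * K - 1 + 1 = 2 * K := by omega
    rw [e3] at e2
    have e4 : ∑ t ∈ T, |F t| ^ (2 * K) = Q := by
      rw [hQ]
      refine sum_congr rfl fun t _ => ?_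
      exact (even_two_mul K).pow_abs _
    rw [e4] at e2
    have hQ0 : 0 ≤ Q := by
      rw [← e4]
      exact sum_nonneg fun t _ => by positivity
    calc (u * (R ^ 4 / 4)) ^ (2 * K) ≤ (∑ t ∈ T, |F t|) ^ (2 * K) := by
          apply pow_le_pow_left₀ (by positivity)
          linarith
      _ ≤ (T.card : ℝ) ^ (2 * K - 1) * Q := e2
      _ ≤ _ := mul_le_mul_of_nonneg_right (pow_le_pow_left₀ (by positivity) hTR _) hQ0
  have hs0 : ∀ s ∈ V, ∀ i, s i ≠ 0 := by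
    intro s hs i
    rw [hV, Fintype.mem_piFinset] at hs
    exact (hU _ (hs i)).1.ne_zero
  have h3 : Q = ∑ s ∈ V, G (∏ i, s i) := by
    have e1 : ∀ t ∈ T, F t ^ (2 * K) = ∑ s ∈ V, χ t (∏ i, s i) := by
      intro t _
      rw [hF]
      have e2 : (∑ p ∈ U, χ t p) ^ (2 * K) = ∏ _i : Fin (2 * K), ∑ p ∈ U, χ t p := by
        rw [prod_const, card_univ, Fintype.card_fin]
      rw [e2, prod_univ_sum, ← hV]
      refine sum_congr rfl fun s hs => ?_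
      rw [hχ, jac_prod (Y t) s univ (hs0 s hs)]
      push_cast
      exact prod_congr rfl fun i _ => hχ _ _
    rw [hQ, sum_congr rfl e1, sum_comm]
    exact sum_congr rfl fun s _ => (hG _).symm
  have h4 : Q ^ 2 ≤ u ^ (2 * K) * ∑ s ∈ V, G (∏ i, s i) ^ 2 := by
    rw [h3, ← hVc]
    exact sq_sum_le_card_mul_sum_sq
  have h5 : ∑ s ∈ V, G (∏ i, s i) ^ 2 ≤ ((2 * K : ℕ) : ℝ) ^ (2 * K) *
      ∑ r ∈ (Icc 1 (P ^ (2 * K))).filter (fun r => Odd r), G r ^ 2 := by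
    rw [hV]
    exact hFI (2 * K) P U (fun r => G r ^ 2) (by omega) (fun r => sq_nonneg _) hU
  obtain ⟨M, hM⟩ : ∃ M : ℝ, M = ((M2 J d).card : ℝ) := ⟨_, rfl⟩
  have hM0 : 0 ≤ M := by rw [hM]; positivity
  have h6 : ∑ r ∈ (Icc 1 (P ^ (2 * K))).filter (fun r => Odd r), G r ^ 2 ≤
      (P : ℝ) ^ (2 * K) * M + 1024 * (N : ℝ) ^ 8 * R ^ 8 := by
    have e1 := hSU (ℕ × ℕ × ℕ × ℕ) T Y (16 * N ^ 4) (P ^ (2 * K)) hYb
    have e2 : ((∑ r ∈ (Icc 1 (P ^ (2 * K))).filter (fun r => Odd r),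
        (∑ t ∈ T, jacobiSym (Y t) r) ^ 2 : ℤ) : ℝ) ≤
        (((P ^ (2 * K) : ℕ) : ℤ) * ((T ×ˢ T).filter (fun x => IsSquare (Y x.1 * Y x.2))).card +
          4 * ((16 * N ^ 4 : ℕ) : ℤ) ^ 2 * (T.card : ℤ) ^ 2 : ℤ) := by
      exact_mod_cast e1
    push_cast at e2
    have e3 : ∑ r ∈ (Icc 1 (P ^ (2 * K))).filter (fun r => Odd r), G r ^ 2 =
        ∑ r ∈ (Icc 1 (P ^ (2 * K))).filter (fun r => Odd r),
        (∑ t ∈ T, ((jacobiSym (Y t) r : ℤ) : ℝ)) ^ 2 := by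
      refine sum_congr rfl fun r _ => ?_
      rw [hG]
      congr 1
      exact sum_congr rfl fun t _ => hχ _ _
    rw [e3]
    have e4 : (((T ×ˢ T).filter (fun x => IsSquare (Y x.1 * Y x.2))).card : ℝ) = M := by
      rw [hM, hT, hY]
      rfl
    rw [e4] at e2
    refine e2.trans (add_le_add le_rfl ?_)
    have e5 : (T.card : ℝ) ^ 2 ≤ (R ^ 4) ^ 2 := pow_le_pow_left₀ (by positivity) hTR 2
    calc 4 * (16 * (N : ℝ) ^ 4) ^ 2 * (T.card : ℝ) ^ 2 ≤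
        4 * (16 * (N : ℝ) ^ 4) ^ 2 * (R ^ 4) ^ 2 :=
          mul_le_mul_of_nonneg_left e5 (by positivity)
      _ = _ := by ring
  -- the final computation
  have hNr : (1 : ℝ) ≤ N := by exact_mod_cast hN
  have hP0 : 0 < (P : ℝ) ^ (2 * K) := by
    refine lt_of_lt_of_le ?_ hNP
    positivity
  have hu1 : 0 < u := by
    rcases hu0.lt_or_eq with h | h
    · exact h
    · exfalso
      rw [← hu, ← h, mul_zero] at hPD
      have e1 : (P : ℝ) = 0 := le_antisymm hPD (by positivity)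
      rw [e1, zero_pow (by omega)] at hP0
      exact lt_irrefl _ hP0
  have h7 : u ^ (2 * K) * R ^ 4 ≤ 4 ^ (2 * K) * Q := by
    have e1 : (u * (R ^ 4 / 4)) ^ (2 * K) * 4 ^ (2 * K) =
        (R ^ 4) ^ (2 * K - 1) * (u ^ (2 * K) * R ^ 4) := by
      obtain ⟨k, hk⟩ : ∃ k, 2 * K = k + 1 := ⟨2 * K - 1, by omega⟩
      rw [hk, Nat.add_sub_cancel, ← mul_pow]
      have e2 : u * (R ^ 4 / 4) * 4 = u * R ^ 4 := by ring
      rw [e2, mul_pow, pow_succ (R ^ 4) k]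
      ring
    have e2 := mul_le_mul_of_nonneg_right h2 (show (0 : ℝ) ≤ 4 ^ (2 * K) by positivity)
    rw [e1, mul_assoc] at e2
    have e3 : 0 < (R ^ 4) ^ (2 * K - 1) := by positivity
    have e4 := le_of_mul_le_mul_left e2 e3
    linarith
  have h8 : u ^ (2 * K) * R ^ 8 ≤ A * ((P : ℝ) ^ (2 * K) * M + 1024 * (N : ℝ) ^ 8 * R ^ 8) := by
    have e1 : (u ^ (2 * K) * R ^ 4) ^ 2 ≤ (4 ^ (2 * K) * Q) ^ 2 :=
      pow_le_pow_left₀ (by positivity) h7 2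
    have e2 : (4 ^ (2 * K) * Q) ^ 2 = 4 ^ (4 * K) * Q ^ 2 := by
      rw [mul_pow, ← pow_mul]
      congr 2
      ring
    have e3 : Q ^ 2 ≤ u ^ (2 * K) * (((2 * K : ℕ) : ℝ) ^ (2 * K) *
        ((P : ℝ) ^ (2 * K) * M + 1024 * (N : ℝ) ^ 8 * R ^ 8)) := by
      refine h4.trans (mul_le_mul_of_nonneg_left (h5.trans ?_) (by positivity))
      exact mul_le_mul_of_nonneg_left h6 (by positivity)
    have e4 : u ^ (2 * K) * (u ^ (2 * K) * R ^ 8) ≤ u ^ (2 * K) *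
        (A * ((P : ℝ) ^ (2 * K) * M + 1024 * (N : ℝ) ^ 8 * R ^ 8)) := by
      calc u ^ (2 * K) * (u ^ (2 * K) * R ^ 8) = (u ^ (2 * K) * R ^ 4) ^ 2 := by ring
        _ ≤ 4 ^ (4 * K) * Q ^ 2 := by rw [← e2]; exact e1
        _ ≤ 4 ^ (4 * K) * (u ^ (2 * K) * (((2 * K : ℕ) : ℝ) ^ (2 * K) *
            ((P : ℝ) ^ (2 * K) * M + 1024 * (N : ℝ) ^ 8 * R ^ 8))) :=
              mul_le_mul_of_nonneg_left e3 (by positivity)
        _ = _ := by rw [hA]; ring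
    exact le_of_mul_le_mul_left e4 (by positivity)
  have h9 : (P : ℝ) ^ (2 * K) * R ^ 8 ≤ A * D ^ (2 * K) *
      ((P : ℝ) ^ (2 * K) * M + 1024 * (N : ℝ) ^ 8 * R ^ 8) := by
    have e1 : (P : ℝ) ^ (2 * K) ≤ (D * u) ^ (2 * K) := by
      apply pow_le_pow_left₀ (by positivity)
      rw [hu]
      exact hPD
    calc (P : ℝ) ^ (2 * K) * R ^ 8 ≤ (D * u) ^ (2 * K) * R ^ 8 :=
          mul_le_mul_of_nonneg_right e1 (by positivity)
      _ = D ^ (2 * K) * (u ^ (2 * K) * R ^ 8) := by rw [mul_pow]; ring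
      _ ≤ D ^ (2 * K) * (A * ((P : ℝ) ^ (2 * K) * M + 1024 * (N : ℝ) ^ 8 * R ^ 8)) :=
          mul_le_mul_of_nonneg_left h8 (by positivity)
      _ = _ := by ring
  have h10 : A * D ^ (2 * K) * (1024 * (N : ℝ) ^ 8 * R ^ 8) ≤ (P : ℝ) ^ (2 * K) * R ^ 8 / 2 := by
    have e1 := mul_le_mul_of_nonneg_right hNP (show (0 : ℝ) ≤ R ^ 8 / 2 by positivity)
    calc A * D ^ (2 * K) * (1024 * (N : ℝ) ^ 8 * R ^ 8) =
        2048 * A * (N : ℝ) ^ 8 * D ^ (2 * K) * (R ^ 8 / 2) := by ring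
      _ ≤ (P : ℝ) ^ (2 * K) * (R ^ 8 / 2) := e1
      _ = _ := by ring
  have h11 : (P : ℝ) ^ (2 * K) * R ^ 8 ≤ (P : ℝ) ^ (2 * K) * (2 * A * D ^ (2 * K) * M) := by
    rw [mul_add] at h9
    have e1 : A * D ^ (2 * K) * ((P : ℝ) ^ (2 * K) * M) * 2 =
        (P : ℝ) ^ (2 * K) * (2 * A * D ^ (2 * K) * M) := by ring
    linarith
  have h12 := le_of_mul_le_mul_left h11 hP0
  rw [← hR, ← hM]
  refine h12.trans ?_
  apply mul_le_mul_of_nonneg_right _ hM0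
  apply mul_le_mul_of_nonneg_right _ (by positivity)
  linarith

end Pool.Agent.Helper12.RD6
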