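import Pool.Agent.Helper18.RD.Stmts7
import Pool.Agent.Helper61.SO.MER

set_option autoImplicit false

namespace Pool.Agent.Helper12.RD6

open Finset Pool.Agent.Helper18.RD

/-- primes in `(a, b]` -/
def IP (a b : ℕ) : Finset ℕ := (Ioc a b).filter Nat.Prime

theorem ip_split (a b : ℕ) (h : a ≤ b) :
    ∑ p ∈ (range (b + 1)).filter Nat.Prime, 1 / (p : ℝ) =
      ∑ p ∈ (range (a + 1)).filter Nat.Prime, 1 / (p : ℝ) + ∑ p ∈ IP a b, 1 / (p : ℝ) := by
  rw [← sum_union]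
  · refine sum_congr ?_ fun _ _ => rfl
    ext p
    simp only [IP, mem_union, mem_filter, mem_range, mem_Ioc]
    constructor
    · rintro ⟨h1, h2⟩
      rcases Nat.lt_or_ge a p with h3 | h3
      · exact Or.inr ⟨⟨h3, by omega⟩, h2⟩
      · exact Or.inl ⟨by omega, h2⟩
    · rintro (⟨h1, h2⟩ | ⟨⟨h1, h3⟩, h2⟩)
      · exact ⟨by omega, h2⟩
      · exact ⟨by omega, h2⟩
  · rw [disjoint_left]
    intro p h1 h2
    simp only [IP, mem_filter, mem_range, mem_Ioc] at h1 h2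
    omega

/-- Mertens in `(4 ^ k, 4 ^ (M k)]` -/
theorem mer_low (C : ℝ) (hC : ∀ z : ℕ, 2 ≤ z →
    |∑ p ∈ (range (z + 1)).filter Nat.Prime, 1 / (p : ℝ) - Real.log (Real.log z)| ≤ C)
    (M k : ℕ) (hM : 1 ≤ M) (hk : 1 ≤ k) :
    Real.log M - 2 * C ≤ ∑ p ∈ IP (4 ^ k) (4 ^ (M * k)), 1 / (p : ℝ) := by
  have hle : 4 ^ k ≤ 4 ^ (M * k) := Nat.pow_le_pow_right (by norm_num) (Nat.le_mul_of_pos_left k hM)
  have h2 : ∀ j : ℕ, 1 ≤ j → 2 ≤ 4 ^ j := by
    intro j hj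
    calc 2 ≤ 4 ^ 1 := by norm_num
      _ ≤ 4 ^ j := Nat.pow_le_pow_right (by norm_num) hj
  have hMk : 1 ≤ M * k := Nat.mul_pos hM hk
  have h3 := abs_le.1 (hC (4 ^ k) (h2 k hk))
  have h4 := abs_le.1 (hC (4 ^ (M * k)) (h2 _ hMk))
  have h5 := ip_split _ _ hle
  have hlog : ∀ j : ℕ, 1 ≤ j → Real.log (Real.log ((4 ^ j : ℕ) : ℝ)) =
      Real.log j + Real.log (Real.log 4) := by
    intro j hj
    have h6 : Real.log ((4 ^ j : ℕ) : ℝ) = j * Real.log 4 := by
      push_cast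
      rw [Real.log_pow]
    have h7 : (0 : ℝ) < j := by exact_mod_cast hj
    have h8 : 0 < Real.log 4 := Real.log_pos (by norm_num)
    rw [h6, Real.log_mul h7.ne' h8.ne']
  rw [hlog k hk] at h3
  rw [hlog _ hMk] at h4
  have h6 : Real.log ((M * k : ℕ) : ℝ) = Real.log M + Real.log k := by
    push_cast
    rw [Real.log_mul]
    · have : (0 : ℝ) < M := by exact_mod_cast hM
      exact this.ne'
    · have : (0 : ℝ) < k := by exact_mod_cast hk
      exact this.ne'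
  rw [h6] at h4
  linarith [h3.1, h3.2, h4.1, h4.2]

/-- few primes not dividing `q`: the sum over them is bounded -/
theorem np_sum (q k : ℕ) (j : ℕ) (h : ∀ i < j,
    (((Icc 1 (4 ^ (k + i + 1))).filter (fun p => p.Prime ∧ ¬ p ∣ q)).card : ℝ) ≤
      2 ^ k * 2 ^ (k + i + 1)) :
    ∑ p ∈ (IP (4 ^ k) (4 ^ (k + j))).filter (fun p => ¬ p ∣ q), 1 / (p : ℝ) ≤
      4 - 4 / 2 ^ j := by
  classical
  induction j with
  | zero =>
    rw [add_zero]
    have h1 : IP (4 ^ k) (4 ^ k) = ∅ := by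
      unfold IP
      rw [Ioc_self, filter_empty]
    rw [h1, filter_empty, sum_empty]
    norm_num
  | succ j ih =>
    have ih' := ih fun i hi => h i (by omega)
    have hj := h j (by omega)
    have hsub : (IP (4 ^ k) (4 ^ (k + (j + 1)))).filter (fun p => ¬ p ∣ q) ⊆
        (IP (4 ^ k) (4 ^ (k + j))).filter (fun p => ¬ p ∣ q) ∪
        (IP (4 ^ (k + j)) (4 ^ (k + j + 1))).filter (fun p => ¬ p ∣ q) := by
      intro p hp
      simp only [IP, mem_union, mem_filter, mem_Ioc] at hp ⊢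
      obtain ⟨⟨⟨h1, h2⟩, h3⟩, h4⟩ := hp
      rcases Nat.lt_or_ge (4 ^ (k + j)) p with h5 | h5
      · exact Or.inr ⟨⟨⟨h5, h2⟩, h3⟩, h4⟩
      · exact Or.inl ⟨⟨⟨h1, h5⟩, h3⟩, h4⟩
    have h1 : ∑ p ∈ (IP (4 ^ k) (4 ^ (k + (j + 1)))).filter (fun p => ¬ p ∣ q), 1 / (p : ℝ) ≤
        ∑ p ∈ (IP (4 ^ k) (4 ^ (k + j))).filter (fun p => ¬ p ∣ q), 1 / (p : ℝ) +
        ∑ p ∈ (IP (4 ^ (k + j)) (4 ^ (k + j + 1))).filter (fun p => ¬ p ∣ q), 1 / (p : ℝ) := by
      refine (sum_le_sum_of_subset_of_nonneg hsub fun _ _ _ => by positivity).trans ?_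
      rw [← sum_union_inter]
      exact le_add_of_nonneg_right (sum_nonneg fun _ _ => by positivity)
    have h2 : ∑ p ∈ (IP (4 ^ (k + j)) (4 ^ (k + j + 1))).filter (fun p => ¬ p ∣ q),
        1 / (p : ℝ) ≤ 2 / 2 ^ j := by
      have h3 : ∀ p ∈ (IP (4 ^ (k + j)) (4 ^ (k + j + 1))).filter (fun p => ¬ p ∣ q),
          1 / (p : ℝ) ≤ 1 / 4 ^ (k + j) := by
        intro p hp
        simp only [IP, mem_filter, mem_Ioc] at hp
        apply one_div_le_one_div_of_le (by positivity)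
        have := hp.1.1.1.le
        exact_mod_cast this
      refine (sum_le_sum h3).trans ?_
      rw [sum_const, nsmul_eq_mul]
      have h4 : ((((IP (4 ^ (k + j)) (4 ^ (k + j + 1))).filter (fun p => ¬ p ∣ q)).card : ℕ) : ℝ) ≤
          2 ^ k * 2 ^ (k + j + 1) := by
        refine le_trans ?_ hj
        have : ((IP (4 ^ (k + j)) (4 ^ (k + j + 1))).filter (fun p => ¬ p ∣ q)).card ≤
            ((Icc 1 (4 ^ (k + j + 1))).filter (fun p => p.Prime ∧ ¬ p ∣ q)).card := by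
          apply card_le_card
          intro p hp
          simp only [IP, mem_filter, mem_Ioc, mem_Icc] at hp ⊢
          obtain ⟨⟨⟨h1, h2⟩, h3⟩, h4⟩ := hp
          exact ⟨⟨h3.one_lt.le, h2⟩, h3, h4⟩
        exact_mod_cast this
      have h5 : (2 : ℝ) ^ k * 2 ^ (k + j + 1) * (1 / 4 ^ (k + j)) = 2 / 2 ^ j := by
        have h6 : (4 : ℝ) ^ (k + j) = 2 ^ (k + j) * 2 ^ (k + j) := by
          rw [← mul_pow]
          norm_num
        rw [h6, pow_add, pow_succ, pow_add]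
        field_simp
      calc _ ≤ (2 : ℝ) ^ k * 2 ^ (k + j + 1) * (1 / 4 ^ (k + j)) :=
            mul_le_mul_of_nonneg_right h4 (by positivity)
        _ = _ := h5
    have h3 : (4 : ℝ) - 4 / 2 ^ (j + 1) = 4 - 4 / 2 ^ j + 2 / 2 ^ j := by
      rw [pow_succ]
      field_simp
      ring
    rw [h3]
    linarith

/-- `q / φ(q)` bounded: the sum of the reciprocals of the primes of `q` is bounded -/
theorem phi_sum (q : ℕ) (B : ℝ) (hB : 0 < B) (hq : 1 ≤ q)
    (h : (q : ℝ) ≤ B * (Nat.totient q : ℝ)) :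
    ∑ p ∈ q.primeFactors, 1 / (p : ℝ) ≤ Real.log B := by
  have hq0 : (0 : ℝ) < q := by exact_mod_cast hq
  have h4 := Nat.totient_eq_mul_prod_factors q
  have h5 : ((Nat.totient q : ℕ) : ℝ) = (q : ℝ) * ∏ p ∈ q.primeFactors, (1 - (p : ℝ)⁻¹) := by
    have h := congrArg (fun x : ℚ => (x : ℝ)) h4
    push_cast at h ⊢
    exact h
  have h6 : ∏ p ∈ q.primeFactors, (1 - (p : ℝ)⁻¹) ≤
      Real.exp (-∑ p ∈ q.primeFactors, 1 / (p : ℝ)) := by
    rw [← sum_neg_distrib, Real.exp_sum]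
    refine prod_le_prod (fun p hp => ?_) fun p hp => ?_
    · have hpp := Nat.prime_of_mem_primeFactors hp
      have : (p : ℝ)⁻¹ ≤ 1 := inv_le_one_of_one_le₀ (by exact_mod_cast hpp.one_lt.le)
      linarith
    · have := Real.add_one_le_exp (-(1 / (p : ℝ)))
      rw [one_div] at this ⊢
      linarith
  rw [h5] at h
  have h7 : (q : ℝ) * 1 ≤ (q : ℝ) * (B * ∏ p ∈ q.primeFactors, (1 - (p : ℝ)⁻¹)) := by
    rw [mul_one]
    calc (q : ℝ) ≤ B * ((q : ℝ) * ∏ p ∈ q.primeFactors, (1 - (p : ℝ)⁻¹)) := h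
      _ = _ := by ring
  have h8 := le_of_mul_le_mul_left h7 hq0
  have h9 : 1 ≤ B * Real.exp (-∑ p ∈ q.primeFactors, 1 / (p : ℝ)) :=
    h8.trans (mul_le_mul_of_nonneg_left h6 hB.le)
  have h10 := Real.log_le_log (by norm_num) h9
  rw [Real.log_one, Real.log_mul hB.ne' (Real.exp_pos _).ne', Real.log_exp] at h10
  linarith

theorem st_MTZ : ST_MTZ := by
  classical
  intro B hB
  obtain ⟨C, hC0, hC⟩ := Pool.Agent.Helper17.SO.mer_abs
  obtain ⟨M, hM⟩ := exists_nat_gt (max 1 (B * Real.exp (4 + 2 * C)))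
  have hM1r : (1 : ℝ) < M := (le_max_left _ _).trans_lt hM
  have hM2 : B * Real.exp (4 + 2 * C) < M := (le_max_right _ _).trans_lt hM
  have hM1 : 1 ≤ M := by exact_mod_cast hM1r.le
  have hM0 : (0 : ℝ) < M := by linarith
  refine ⟨1 / (16 * M), 2 ^ (16 * M), by positivity, ?_, ?_⟩
  · apply one_div_le_one_div_of_le (by norm_num)
    linarith
  intro N q hN hq hqB
  by_contra hcon
  push Not at hcon
  have hNr : ((2 : ℝ) ^ (16 * M)) ≤ N := by exact_mod_cast hN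
  have hN1 : (1 : ℝ) ≤ N := le_trans (one_le_pow₀ (by norm_num)) hNr
  have hN0 : (0 : ℝ) < N := by linarith
  have hl2 : 0 < Real.log 2 := Real.log_pos (by norm_num)
  obtain ⟨L, hL⟩ : ∃ L : ℝ, L = Real.log N / Real.log 2 := ⟨_, rfl⟩
  have hNL : ∀ s : ℝ, (N : ℝ) ^ s = (2 : ℝ) ^ (s * L) := by
    intro s
    rw [Real.rpow_def_of_pos hN0, Real.rpow_def_of_pos (by norm_num : (0 : ℝ) < 2), hL]
    congr 1
    field_simp
  have hL16 : 16 * (M : ℝ) ≤ L := by
    rw [hL, le_div_iff₀ hl2]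
    have h1 := Real.log_le_log (by positivity) hNr
    rw [Real.log_pow] at h1
    push_cast at h1
    exact h1
  have hL0 : 0 < L := by linarith
  obtain ⟨k, hk⟩ : ∃ k : ℕ, k = ⌈1 / (16 * (M : ℝ)) * L⌉₊ := ⟨_, rfl⟩
  have hk1 : 1 / (16 * (M : ℝ)) * L ≤ k := by rw [hk]; exact Nat.le_ceil _
  have hk2 : (k : ℝ) < 1 / (16 * (M : ℝ)) * L + 1 := by
    rw [hk]
    exact Nat.ceil_lt_add_one (by positivity)
  have hk0 : 1 ≤ k := by
    rw [hk, Nat.one_le_ceil_iff]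
    positivity
  have hNk : (N : ℝ) ^ (1 / (16 * (M : ℝ))) ≤ 2 ^ k := by
    rw [hNL, ← Real.rpow_natCast]
    exact Real.rpow_le_rpow_of_exponent_le (by norm_num) hk1
  have hNM : ((4 : ℝ) ^ (M * k)) ≤ (N : ℝ) ^ (1 / 4 : ℝ) := by
    have h1 : (4 : ℝ) ^ (M * k) = (2 : ℝ) ^ (((2 * (M * k) : ℕ)) : ℝ) := by
      have h0 : (4 : ℝ) = 2 ^ 2 := by norm_num
      rw [h0, ← pow_mul]
      exact (Real.rpow_natCast 2 _).symm
    rw [h1, hNL]
    apply Real.rpow_le_rpow_of_exponent_le (by norm_num)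
    push_cast
    have h2 := mul_le_mul_of_nonneg_left hk2.le hM0.le
    have h3 : (M : ℝ) * (1 / (16 * (M : ℝ)) * L + 1) = L / 16 + M := by
      field_simp
    rw [h3] at h2
    linarith
  -- the counting hypothesis on the dyadic scales
  have hcount : ∀ i : ℕ, k + i + 1 ≤ M * k →
      (((Icc 1 (4 ^ (k + i + 1))).filter (fun p => p.Prime ∧ ¬ p ∣ q)).card : ℝ) ≤
        2 ^ k * 2 ^ (k + i + 1) := by
    intro i hi
    have h1 := hcon (4 ^ (k + i + 1)) (Nat.one_le_pow _ _ (by norm_num)) (by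
      push_cast
      refine le_trans ?_ hNM
      exact pow_le_pow_right₀ (by norm_num) hi)
    refine h1.le.trans ?_
    have h2 : Real.sqrt ((4 ^ (k + i + 1) : ℕ) : ℝ) = 2 ^ (k + i + 1) := by
      push_cast
      have h3 : (4 : ℝ) ^ (k + i + 1) = (2 ^ (k + i + 1)) ^ 2 := by
        rw [← pow_mul, mul_comm, pow_mul]
        norm_num
      rw [h3, Real.sqrt_sq (by positivity)]
    rw [h2]
    exact mul_le_mul_of_nonneg_right hNk (by positivity)
  have hMk : k ≤ M * k := Nat.le_mul_of_pos_left k hM1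
  obtain ⟨j, hj⟩ : ∃ j, M * k = k + j := ⟨M * k - k, by omega⟩
  have h1 := np_sum q k j (fun i hi => hcount i (by omega))
  rw [← hj] at h1
  have h2 := mer_low C hC M k hM1 hk0
  have h3 : ∑ p ∈ (IP (4 ^ k) (4 ^ (M * k))).filter (fun p => p ∣ q), 1 / (p : ℝ) ≤
      Real.log B := by
    refine le_trans ?_ (phi_sum q B hB hq hqB)
    apply sum_le_sum_of_subset_of_nonneg
    · intro p hp
      simp only [IP, mem_filter] at hp
      exact Nat.mem_primeFactors.2 ⟨hp.1.2, hp.2, by omega⟩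
    · intro _ _ _
      positivity
  have h4 := sum_filter_add_sum_filter_not (IP (4 ^ k) (4 ^ (M * k))) (fun p => p ∣ q)
    (fun p => 1 / (p : ℝ))
  have h5 : (0 : ℝ) ≤ 4 / 2 ^ j := by positivity
  have h6 : Real.log M ≤ Real.log B + 4 + 2 * C := by linarith
  have h7 : Real.log (B * Real.exp (4 + 2 * C)) < Real.log M :=
    Real.log_lt_log (by positivity) hM2
  rw [Real.log_mul hB.ne' (Real.exp_pos _).ne', Real.log_exp] at h7
  linarith

end Pool.Agent.Helper12.RD6
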